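import Pool.Agent.H98.CE.Targets

/-!
# DRS: dressing (MP_65efe8_pr)
-/

set_option autoImplicit false

open MeasureTheory ProbabilityTheory Filter Topology
open Pool.Agent.H95 Pool.Agent.H95.Cop
open Pool.Agent.H55.CG (pz VV Mo)

namespace Pool.Agent.H59.CE

open Pool.Agent.H98.CE

theorem pf_DRS (hDS1 : T_DS1) (hDS2 : T_DS2) (hDS3 : T_DS3) (hPHI : T_PHI) : T_DRS := by
  intro K ν _ ℓ α β κ n J t C E hℓ hα hβ hκ hHK hn hO ht glo ghi k M lo hi hglo hsum hlo hhi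
    hlh q e hq0 hq he0 heM
  obtain ⟨w, lab, hOb⟩ := hO
  obtain ⟨a1, a2, a3, a4, a5⟩ := hDS1 K ν ℓ α β κ n J t C E w lab hℓ hα hκ hHK hn hOb glo ghi k M
    lo hi hglo hsum hlo hhi
  obtain ⟨b1, b2, b3, b4⟩ := hDS3 K ν ℓ α β κ n J t C E w lab hℓ hα hκ hn hOb glo ghi k M
    lo hi hglo hsum hlo hhi
  have hp : (iid ν).real {x : ℕ → ℝ | 1 ≤ lab x} ≤ n * C * Real.exp (-(β / (1 + α))) := by
    have h := hPHI K ν ℓ α β n J t C E w lab hα hβ hOb 1 le_rfl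
    rwa [Nat.cast_one, mul_one] at h
  have hd := hDS2 K ν ℓ α β κ n J t C E w lab hℓ hα hκ hn hOb ht glo ghi k M
    lo hi hglo hsum hlo hhi hlh _ q e hp hq0 hq he0 heM
  exact ⟨_, _, a1, a2, a3, a4, fun x => (a5 x).1, fun x => (a5 x).2.1, fun x => (a5 x).2.2.1,
    fun x => (a5 x).2.2.2.1, fun x => (a5 x).2.2.2.2, b1, b2, hd, b3, b4⟩

end Pool.Agent.H59.CE
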