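import Pool.Agent.H98.CE.Targets

/-!
# LIS: independence, with the sum of the labels (MP_65efe8_pr)
-/

set_option autoImplicit false

open MeasureTheory ProbabilityTheory Filter Topology
open Pool.Agent.H95 Pool.Agent.H95.Cop
open Pool.Agent.H55.CG (pz VV Mo)

namespace Pool.Agent.H59.CE

open Pool.Agent.H98.CE

open Classical in
/-- the integrand -/
noncomputable def lisF (s thr : ℕ) (lab : (ℕ → ℝ) → ℕ) (f : (ℕ → ℝ) → ℝ) (N : ℕ) (S : Finset ℕ)
    (v : ℕ) (x : ℕ → ℝ) : ℝ :=
  if (∀ k < N, (k ∈ S ↔ thr ≤ lab (shift (k * s) x))) ∧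
    ∑ k ∈ S, lab (shift (k * s) x) = v then ∏ k ∈ S, f (shift (k * s) x) else 0

theorem lis_set (s thr : ℕ) {lab : (ℕ → ℝ) → ℕ} (hlab : Measurable lab) (N : ℕ) (S : Finset ℕ) :
    MeasurableSet {x : ℕ → ℝ | ∀ k < N, (k ∈ S ↔ thr ≤ lab (shift (k * s) x))} := by
  have h1 : {x : ℕ → ℝ | ∀ k < N, (k ∈ S ↔ thr ≤ lab (shift (k * s) x))} =
      ⋂ k ∈ Finset.range N, {x : ℕ → ℝ | (k ∈ S ↔ thr ≤ lab (shift (k * s) x))} := by
    ext x
    simp
  rw [h1]
  refine Finset.measurableSet_biInter _ fun k _ => ?_
  have hm : MeasurableSet {x : ℕ → ℝ | thr ≤ lab (shift (k * s) x)} :=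
    (hlab.comp (measurable_shift (k * s))) (measurableSet_Ici (a := thr))
  by_cases hk : k ∈ S
  · have h2 : {x : ℕ → ℝ | (k ∈ S ↔ thr ≤ lab (shift (k * s) x))} =
        {x : ℕ → ℝ | thr ≤ lab (shift (k * s) x)} := by
      ext x
      simp [hk]
    rw [h2]
    exact hm
  · have h2 : {x : ℕ → ℝ | (k ∈ S ↔ thr ≤ lab (shift (k * s) x))} =
        {x : ℕ → ℝ | thr ≤ lab (shift (k * s) x)}ᶜ := by
      ext x
      simp [hk]
    rw [h2]
    exact hm.compl

theorem lis_meas (s thr : ℕ) {lab : (ℕ → ℝ) → ℕ} {f : (ℕ → ℝ) → ℝ} (hlab : Measurable lab)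
    (hf : Measurable f) (N : ℕ) (S : Finset ℕ) (v : ℕ) :
    Measurable (lisF s thr lab f N S v) := by
  classical
  unfold lisF
  refine Measurable.ite ?_ ?_ measurable_const
  · refine (lis_set s thr hlab N S).inter ?_
    have h1 : Measurable fun x : ℕ → ℝ => ∑ k ∈ S, lab (shift (k * s) x) :=
      Finset.measurable_sum _ fun k _ => hlab.comp (measurable_shift (k * s))
    exact h1 (measurableSet_singleton v)
  · exact Finset.measurable_prod _ fun k _ => hf.comp (measurable_shift (k * s))

theorem lis_shift {β : Type*} {s : ℕ} {g : (ℕ → ℝ) → β} (hg : DepLt s g) {k N : ℕ} (hk : k < N)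
    {x x' : ℕ → ℝ} (h : ∀ i < N * s, x i = x' i) : g (shift (k * s) x) = g (shift (k * s) x') := by
  apply hg
  intro i hi
  rw [shift_apply, shift_apply]
  apply h
  have : (k + 1) * s ≤ N * s := Nat.mul_le_mul_right s hk
  rw [add_mul, one_mul] at this
  omega

theorem lis_dep {s : ℕ} (thr : ℕ) {lab : (ℕ → ℝ) → ℕ} {f : (ℕ → ℝ) → ℝ} (hlab : DepLt s lab)
    (hf : DepLt s f) (N : ℕ) (S : Finset ℕ) (hS : S ⊆ Finset.range N) (v : ℕ) :
    DepLt (N * s) (lisF s thr lab f N S v) := by
  classical
  intro x x' h
  have h1 : ∀ k < N, lab (shift (k * s) x) = lab (shift (k * s) x') := fun k hk =>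
    lis_shift hlab hk h
  have h2 : ∀ k ∈ S, lab (shift (k * s) x) = lab (shift (k * s) x') := fun k hk =>
    h1 k (Finset.mem_range.1 (hS hk))
  have h3 : ∀ k ∈ S, f (shift (k * s) x) = f (shift (k * s) x') := fun k hk =>
    lis_shift hf (Finset.mem_range.1 (hS hk)) h
  have h4 : (∀ k < N, (k ∈ S ↔ thr ≤ lab (shift (k * s) x))) ↔
      (∀ k < N, (k ∈ S ↔ thr ≤ lab (shift (k * s) x'))) := by
    constructor
    · intro hh k hk
      rw [← h1 k hk]
      exact hh k hk
    · intro hh k hk
      rw [h1 k hk]
      exact hh k hk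
  unfold lisF
  rw [Finset.sum_congr rfl h2, Finset.prod_congr rfl h3]
  by_cases hc : (∀ k < N, (k ∈ S ↔ thr ≤ lab (shift (k * s) x'))) ∧
      ∑ k ∈ S, lab (shift (k * s) x') = v
  · rw [if_pos hc, if_pos ⟨h4.2 hc.1, hc.2⟩]
  · rw [if_neg hc, if_neg fun hh => hc ⟨h4.1 hh.1, hh.2⟩]

open Classical in
theorem lis_step_out (s thr : ℕ) (lab : (ℕ → ℝ) → ℕ) (f : (ℕ → ℝ) → ℝ) (N : ℕ) (S : Finset ℕ)
    (hN : N ∉ S) (v : ℕ) (x : ℕ → ℝ) :
    lisF s thr lab f (N + 1) S v x = lisF s thr lab f N S v x *
      (fun x : ℕ → ℝ => if lab x < thr then (1 : ℝ) else 0) (shift (N * s) x) := by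
  unfold lisF
  beta_reduce
  by_cases hl : lab (shift (N * s) x) < thr
  · rw [if_pos hl, mul_one]
    have h4 : (∀ k < N + 1, (k ∈ S ↔ thr ≤ lab (shift (k * s) x))) ↔
        (∀ k < N, (k ∈ S ↔ thr ≤ lab (shift (k * s) x))) := by
      constructor
      · intro hh k hk
        exact hh k (by omega)
      · intro hh k hk
        rcases Nat.lt_succ_iff_lt_or_eq.1 hk with h | h
        · exact hh k h
        · subst h
          constructor
          · intro h
            exact absurd h hN
          · intro h
            omega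
    simp only [h4]
  · rw [if_neg hl, mul_zero, if_neg]
    rintro ⟨h1, -⟩
    exact hN ((h1 N (by omega)).2 (by omega))

open Classical in
theorem lis_step_in (s thr : ℕ) (lab : (ℕ → ℝ) → ℕ) (f : (ℕ → ℝ) → ℝ) (N : ℕ) (S : Finset ℕ)
    (hN : N ∈ S) (hS : S ⊆ Finset.range (N + 1)) (v : ℕ) (x : ℕ → ℝ) :
    lisF s thr lab f (N + 1) S v x = ∑ j ∈ Finset.Icc thr v,
      lisF s thr lab f N (S.erase N) (v - j) x *
      (fun x : ℕ → ℝ => if lab x = j then f x else 0) (shift (N * s) x) := by
  unfold lisF
  beta_reduce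
  have hsum := Finset.add_sum_erase S (fun k => lab (shift (k * s) x)) hN
  have hprod := Finset.mul_prod_erase S (fun k => f (shift (k * s) x)) hN
  beta_reduce at hsum hprod
  simp only [mul_ite, mul_zero, Finset.sum_ite_eq]
  by_cases hj : lab (shift (N * s) x) ∈ Finset.Icc thr v
  · rw [if_pos hj]
    rw [Finset.mem_Icc] at hj
    have h4 : ((∀ k < N + 1, (k ∈ S ↔ thr ≤ lab (shift (k * s) x))) ∧
        ∑ k ∈ S, lab (shift (k * s) x) = v) ↔
        ((∀ k < N, (k ∈ S.erase N ↔ thr ≤ lab (shift (k * s) x))) ∧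
        ∑ k ∈ S.erase N, lab (shift (k * s) x) = v - lab (shift (N * s) x)) := by
      constructor
      · rintro ⟨h1, h2⟩
        refine ⟨fun k hk => ?_, by omega⟩
        rw [Finset.mem_erase, ← h1 k (by omega)]
        constructor
        · exact fun h => h.2
        · exact fun h => ⟨by omega, h⟩
      · rintro ⟨h1, h2⟩
        refine ⟨fun k hk => ?_, by omega⟩
        rcases Nat.lt_succ_iff_lt_or_eq.1 hk with h | h
        · rw [← h1 k h, Finset.mem_erase]
          constructor
          · exact fun h' => ⟨by omega, h'⟩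
          · exact fun h' => h'.2
        · subst h
          exact ⟨fun _ => hj.1, fun _ => hN⟩
    by_cases hc : (∀ k < N + 1, (k ∈ S ↔ thr ≤ lab (shift (k * s) x))) ∧
        ∑ k ∈ S, lab (shift (k * s) x) = v
    · rw [if_pos hc, if_pos (h4.1 hc), ← hprod]
      ring
    · rw [if_neg hc, if_neg fun hh => hc (h4.2 hh), zero_mul]
  · rw [if_neg hj]
    rw [if_neg]
    rintro ⟨h1, h2⟩
    apply hj
    rw [Finset.mem_Icc]
    exact ⟨(h1 N (by omega)).1 hN, by omega⟩

open Classical in
theorem pf_LIS (hLIT : T_LIT) : T_LIS := by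
  intro ν _ s thr lab f hlab hdl hf hdf hf0 hfi N
  set b : ℕ → ℝ := fun j => ∫ x : ℕ → ℝ, (if lab x = j then f x else 0) ∂(iid ν) with hb
  set ρ : ℝ := (iid ν).real {x : ℕ → ℝ | lab x < thr} with hρ
  show ∀ S : Finset ℕ, S ⊆ Finset.range N → ∀ v : ℕ,
    ∫ x : ℕ → ℝ, lisF s thr lab f N S v x ∂(iid ν) = cv b thr S.card v * ρ ^ (N - S.card)
  induction N with
  | zero =>
    intro S hS v
    have hS0 : S = ∅ := by
      rw [Finset.range_zero] at hS
      exact Finset.subset_empty.1 hS
    subst hS0
    have h1 : ∀ x : ℕ → ℝ, lisF s thr lab f 0 ∅ v x = if v = 0 then (1 : ℝ) else 0 := by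
      intro x
      unfold lisF
      by_cases hv : v = 0
      · subst hv
        simp
      · rw [if_neg hv, if_neg]
        rintro ⟨-, h⟩
        rw [Finset.sum_empty] at h
        exact hv h.symm
    simp only [h1]
    rw [integral_const, probReal_univ, one_smul]
    simp [cv]
  | succ N ih =>
    intro S hS v
    by_cases hN : N ∈ S
    · have hS' : S.erase N ⊆ Finset.range N := by
        intro k hk
        rw [Finset.mem_erase] at hk
        have := Finset.mem_range.1 (hS hk.2)
        rw [Finset.mem_range]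
        omega
      have hcard : S.card = (S.erase N).card + 1 := (Finset.card_erase_add_one hN).symm
      have hgm : ∀ j : ℕ, Measurable (fun x : ℕ → ℝ => if lab x = j then f x else 0) := fun j =>
        Measurable.ite (hlab (measurableSet_singleton j)) hf measurable_const
      have hint : ∀ j ∈ Finset.Icc thr v, Integrable (fun x : ℕ → ℝ =>
          lisF s thr lab f N (S.erase N) (v - j) x *
          (fun x : ℕ → ℝ => if lab x = j then f x else 0) (shift (N * s) x)) (iid ν) := by
        intro j hj
        have hL := (hLIT ν s thr lab f hlab hdl hf hdf hf0 hfi (N + 1) S hS).1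
        refine Integrable.mono' hL ?_ (Filter.Eventually.of_forall fun x => ?_)
        · exact ((lis_meas s thr hlab hf N _ _).mul
            ((hgm j).comp (measurable_shift (N * s)))).aestronglyMeasurable
        · have hnn : ∀ T : Finset ℕ, 0 ≤ ∏ k ∈ T, f (shift (k * s) x) := fun T =>
            Finset.prod_nonneg fun k _ => hf0 _
          rw [Real.norm_eq_abs]
          beta_reduce
          rw [Finset.mem_Icc] at hj
          unfold lisF
          by_cases h1 : (∀ k < N, (k ∈ S.erase N ↔ thr ≤ lab (shift (k * s) x))) ∧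
              ∑ k ∈ S.erase N, lab (shift (k * s) x) = v - j
          · by_cases h2 : lab (shift (N * s) x) = j
            · rw [if_pos h1, if_pos h2, if_pos, abs_of_nonneg (mul_nonneg (hnn _) (hf0 _)),
                ← Finset.mul_prod_erase S (fun k => f (shift (k * s) x)) hN, mul_comm]
              intro k hk
              rcases Nat.lt_succ_iff_lt_or_eq.1 hk with h | h
              · rw [← h1.1 k h, Finset.mem_erase]
                exact ⟨fun h' => ⟨by omega, h'⟩, fun h' => h'.2⟩
              · subst h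
                rw [h2]
                exact ⟨fun _ => hj.1, fun _ => hN⟩
            · rw [if_neg h2, mul_zero, abs_zero]
              split_ifs
              · exact hnn _
              · exact le_rfl
          · rw [if_neg h1, zero_mul, abs_zero]
            split_ifs
            · exact hnn _
            · exact le_rfl
      simp only [lis_step_in s thr lab f N S hN hS v]
      rw [integral_finsetSum _ hint, hcard]
      have hcv : cv b thr ((S.erase N).card + 1) v =
        ∑ j ∈ Finset.Icc thr v, b j * cv b thr (S.erase N).card (v - j) := rfl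
      rw [hcv, Finset.sum_mul]
      refine Finset.sum_congr rfl fun j _ => ?_
      have h5 := integral_mul_shift ν (lis_dep thr hdl hdf N (S.erase N) hS' (v - j))
        (lis_meas s thr hlab hf N (S.erase N) (v - j)).aestronglyMeasurable
        (hgm j).aestronglyMeasurable
      rw [h5, ih _ hS' (v - j)]
      have h6 : N + 1 - ((S.erase N).card + 1) = N - (S.erase N).card := by omega
      rw [h6]
      show _ * b j = _
      ring
    · have hS' : S ⊆ Finset.range N := by
        intro k hk
        have := Finset.mem_range.1 (hS hk)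
        rw [Finset.mem_range]
        have hne : k ≠ N := fun h => hN (h ▸ hk)
        omega
      have hcard : S.card ≤ N := by
        have := Finset.card_le_card hS'
        rwa [Finset.card_range] at this
      have hgs : MeasurableSet {x : ℕ → ℝ | lab x < thr} := hlab (measurableSet_Iio (a := thr))
      have hgm : Measurable (fun x : ℕ → ℝ => if lab x < thr then (1 : ℝ) else 0) :=
        Measurable.ite hgs measurable_const measurable_const
      simp only [lis_step_out s thr lab f N S hN v]
      have h5 := integral_mul_shift ν (lis_dep thr hdl hdf N S hS' v)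
        (lis_meas s thr hlab hf N S v).aestronglyMeasurable hgm.aestronglyMeasurable
      rw [h5, ih S hS' v]
      have h7 : ∫ x : ℕ → ℝ, (if lab x < thr then (1 : ℝ) else 0) ∂(iid ν) = ρ := by
        have h8 : (fun x : ℕ → ℝ => if lab x < thr then (1 : ℝ) else 0) =
            Set.indicator {x : ℕ → ℝ | lab x < thr} 1 := by
          funext x
          by_cases hx : lab x < thr
          · rw [if_pos hx, Set.indicator_of_mem (by exact hx)]
            rfl
          · rw [if_neg hx, Set.indicator_of_notMem (by exact hx)]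
        rw [h8, integral_indicator_one hgs]
      rw [h7]
      have h6 : N + 1 - S.card = (N - S.card) + 1 := by omega
      rw [h6, pow_succ]
      ring

end Pool.Agent.H59.CE
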