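import Pool.Agent.H98.CE.Targets

/-!
# LIT: independence, without labels (MP_65efe8_pr)
-/

set_option autoImplicit false

open MeasureTheory ProbabilityTheory Filter Topology
open Pool.Agent.H95 Pool.Agent.H95.Cop
open Pool.Agent.H55.CG (pz VV Mo)

namespace Pool.Agent.H59.CE

open Pool.Agent.H98.CE

open Classical in
/-- the integrand -/
noncomputable def litF (s thr : ℕ) (lab : (ℕ → ℝ) → ℕ) (f : (ℕ → ℝ) → ℝ) (N : ℕ) (S : Finset ℕ)
    (x : ℕ → ℝ) : ℝ :=
  if (∀ k < N, (k ∈ S ↔ thr ≤ lab (shift (k * s) x))) then ∏ k ∈ S, f (shift (k * s) x) else 0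

theorem lit_shift {β : Type*} {s : ℕ} {g : (ℕ → ℝ) → β} (hg : DepLt s g) {k N : ℕ} (hk : k < N)
    {x x' : ℕ → ℝ} (h : ∀ i < N * s, x i = x' i) : g (shift (k * s) x) = g (shift (k * s) x') := by
  apply hg
  intro i hi
  rw [shift_apply, shift_apply]
  apply h
  have : (k + 1) * s ≤ N * s := Nat.mul_le_mul_right s hk
  rw [add_mul, one_mul] at this
  omega

theorem lit_dep {s : ℕ} (thr : ℕ) {lab : (ℕ → ℝ) → ℕ} {f : (ℕ → ℝ) → ℝ} (hlab : DepLt s lab)
    (hf : DepLt s f) (N : ℕ) (S : Finset ℕ) (hS : S ⊆ Finset.range N) :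
    DepLt (N * s) (litF s thr lab f N S) := by
  classical
  intro x x' h
  have h1 : ∀ k < N, lab (shift (k * s) x) = lab (shift (k * s) x') := fun k hk =>
    lit_shift hlab hk h
  have h3 : ∀ k ∈ S, f (shift (k * s) x) = f (shift (k * s) x') := fun k hk =>
    lit_shift hf (Finset.mem_range.1 (hS hk)) h
  have h4 : (∀ k < N, (k ∈ S ↔ thr ≤ lab (shift (k * s) x))) ↔
      (∀ k < N, (k ∈ S ↔ thr ≤ lab (shift (k * s) x'))) := by
    constructor
    · intro hh k hk
      rw [← h1 k hk]
      exact hh k hk
    · intro hh k hk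
      rw [h1 k hk]
      exact hh k hk
  unfold litF
  rw [Finset.prod_congr rfl h3]
  by_cases hc : (∀ k < N, (k ∈ S ↔ thr ≤ lab (shift (k * s) x')))
  · rw [if_pos hc, if_pos (h4.2 hc)]
  · rw [if_neg hc, if_neg fun hh => hc (h4.1 hh)]

/-- the product of a function of the past and of the future is integrable -/
theorem lit_int (ν : Measure ℝ) [IsProbabilityMeasure ν] {t : ℕ} {f g : (ℕ → ℝ) → ℝ}
    (hf : DepLt t f) (hfi : Integrable f (iid ν)) (hgi : Integrable g (iid ν)) :
    Integrable (fun x => f x * g (shift t x)) (iid ν) := by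
  have hg' : AEStronglyMeasurable (fun x => g (shift t x)) (iid ν) :=
    hgi.1.comp_measurePreserving (measurePreserving_shift ν t)
  have hmp := measurePreserving_splice ν t
  refine (hmp.integrable_comp (g := fun x => f x * g (shift t x)) (hfi.1.mul hg')).1 ?_
  have h2 : (fun x => f x * g (shift t x)) ∘ (splice t : (ℕ → ℝ) × (ℕ → ℝ) → (ℕ → ℝ)) =
      fun q => f q.1 * g q.2 := by
    funext q
    show f (splice t q) * g (shift t (splice t q)) = _
    rw [hf.splice_eq, shift_splice]
  rw [h2]
  exact hfi.mul_prod hgi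

open Classical in
theorem lit_step_out (s thr : ℕ) (lab : (ℕ → ℝ) → ℕ) (f : (ℕ → ℝ) → ℝ) (N : ℕ) (S : Finset ℕ)
    (hN : N ∉ S) (x : ℕ → ℝ) :
    litF s thr lab f (N + 1) S x = litF s thr lab f N S x *
      (fun x : ℕ → ℝ => if lab x < thr then (1 : ℝ) else 0) (shift (N * s) x) := by
  unfold litF
  beta_reduce
  by_cases hl : lab (shift (N * s) x) < thr
  · rw [if_pos hl, mul_one]
    have h4 : (∀ k < N + 1, (k ∈ S ↔ thr ≤ lab (shift (k * s) x))) ↔
        (∀ k < N, (k ∈ S ↔ thr ≤ lab (shift (k * s) x))) := by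
      constructor
      · intro hh k hk
        exact hh k (by omega)
      · intro hh k hk
        rcases Nat.lt_succ_iff_lt_or_eq.1 hk with h | h
        · exact hh k h
        · subst h
          constructor
          · intro h
            exact absurd h hN
          · intro h
            omega
    simp only [h4]
  · rw [if_neg hl, mul_zero, if_neg]
    intro h1
    exact hN ((h1 N (by omega)).2 (by omega))

open Classical in
theorem lit_step_in (s thr : ℕ) (lab : (ℕ → ℝ) → ℕ) (f : (ℕ → ℝ) → ℝ) (N : ℕ) (S : Finset ℕ)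
    (hN : N ∈ S) (x : ℕ → ℝ) :
    litF s thr lab f (N + 1) S x = litF s thr lab f N (S.erase N) x *
      (fun x : ℕ → ℝ => if thr ≤ lab x then f x else 0) (shift (N * s) x) := by
  unfold litF
  beta_reduce
  have hprod := Finset.mul_prod_erase S (fun k => f (shift (k * s) x)) hN
  beta_reduce at hprod
  by_cases hl : thr ≤ lab (shift (N * s) x)
  · rw [if_pos hl]
    have h4 : (∀ k < N + 1, (k ∈ S ↔ thr ≤ lab (shift (k * s) x))) ↔
        (∀ k < N, (k ∈ S.erase N ↔ thr ≤ lab (shift (k * s) x))) := by
      constructor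
      · intro h1 k hk
        rw [Finset.mem_erase, ← h1 k (by omega)]
        constructor
        · exact fun h => h.2
        · exact fun h => ⟨by omega, h⟩
      · intro h1 k hk
        rcases Nat.lt_succ_iff_lt_or_eq.1 hk with h | h
        · rw [← h1 k h, Finset.mem_erase]
          constructor
          · exact fun h' => ⟨by omega, h'⟩
          · exact fun h' => h'.2
        · subst h
          exact ⟨fun _ => hl, fun _ => hN⟩
    by_cases hc : (∀ k < N + 1, (k ∈ S ↔ thr ≤ lab (shift (k * s) x)))
    · rw [if_pos hc, if_pos (h4.1 hc), ← hprod]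
      ring
    · rw [if_neg hc, if_neg fun hh => hc (h4.2 hh), zero_mul]
  · rw [if_neg hl, mul_zero, if_neg]
    intro h1
    exact hl ((h1 N (by omega)).1 hN)

open Classical in
theorem pf_LIT : T_LIT := by
  intro ν _ s thr lab f hlab hdl hf hdf hf0 hfi N
  set b : ℝ := ∫ x : ℕ → ℝ, (if thr ≤ lab x then f x else 0) ∂(iid ν) with hb
  set ρ : ℝ := (iid ν).real {x : ℕ → ℝ | lab x < thr} with hρ
  show ∀ S : Finset ℕ, S ⊆ Finset.range N → Integrable (litF s thr lab f N S) (iid ν) ∧
    ∫ x : ℕ → ℝ, litF s thr lab f N S x ∂(iid ν) = b ^ S.card * ρ ^ (N - S.card)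
  have hgs : MeasurableSet {x : ℕ → ℝ | lab x < thr} := hlab (measurableSet_Iio (a := thr))
  have hgs' : MeasurableSet {x : ℕ → ℝ | thr ≤ lab x} := hlab (measurableSet_Ici (a := thr))
  have hbi : Integrable (fun x : ℕ → ℝ => if thr ≤ lab x then f x else 0) (iid ν) := by
    have h8 : (fun x : ℕ → ℝ => if thr ≤ lab x then f x else 0) =
        Set.indicator {x : ℕ → ℝ | thr ≤ lab x} f := by
      funext x
      by_cases hx : thr ≤ lab x
      · rw [if_pos hx, Set.indicator_of_mem (by exact hx)]
      · rw [if_neg hx, Set.indicator_of_notMem (by exact hx)]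
    rw [h8]
    exact hfi.indicator hgs'
  have h8 : (fun x : ℕ → ℝ => if lab x < thr then (1 : ℝ) else 0) =
      Set.indicator {x : ℕ → ℝ | lab x < thr} 1 := by
    funext x
    by_cases hx : lab x < thr
    · rw [if_pos hx, Set.indicator_of_mem (by exact hx)]
      rfl
    · rw [if_neg hx, Set.indicator_of_notMem (by exact hx)]
  have hρi : Integrable (fun x : ℕ → ℝ => if lab x < thr then (1 : ℝ) else 0) (iid ν) := by
    rw [h8]
    exact (integrable_const (1 : ℝ)).indicator hgs
  have hρ' : ∫ x : ℕ → ℝ, (if lab x < thr then (1 : ℝ) else 0) ∂(iid ν) = ρ := by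
    rw [h8, integral_indicator_one hgs]
  induction N with
  | zero =>
    intro S hS
    have hS0 : S = ∅ := by
      rw [Finset.range_zero] at hS
      exact Finset.subset_empty.1 hS
    subst hS0
    have h1 : litF s thr lab f 0 ∅ = fun _ => (1 : ℝ) := by
      funext x
      unfold litF
      simp
    rw [h1]
    refine ⟨integrable_const _, ?_⟩
    rw [integral_const, probReal_univ, one_smul]
    simp
  | succ N ih =>
    intro S hS
    by_cases hN : N ∈ S
    · have hS' : S.erase N ⊆ Finset.range N := by
        intro k hk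
        rw [Finset.mem_erase] at hk
        have := Finset.mem_range.1 (hS hk.2)
        rw [Finset.mem_range]
        omega
      have hcard : S.card = (S.erase N).card + 1 := (Finset.card_erase_add_one hN).symm
      obtain ⟨i1, i2⟩ := ih _ hS'
      have hd := lit_dep thr hdl hdf N (S.erase N) hS'
      have hfun : litF s thr lab f (N + 1) S = fun x => litF s thr lab f N (S.erase N) x *
          (fun x : ℕ → ℝ => if thr ≤ lab x then f x else 0) (shift (N * s) x) := by
        funext x
        exact lit_step_in s thr lab f N S hN x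
      rw [hfun]
      refine ⟨lit_int ν hd i1 hbi, ?_⟩
      rw [integral_mul_shift ν hd i1.1 hbi.1, i2, hcard]
      have h6 : N + 1 - ((S.erase N).card + 1) = N - (S.erase N).card := by omega
      rw [h6, pow_succ]
      ring
    · have hS' : S ⊆ Finset.range N := by
        intro k hk
        have := Finset.mem_range.1 (hS hk)
        rw [Finset.mem_range]
        have hne : k ≠ N := fun h => hN (h ▸ hk)
        omega
      have hcard : S.card ≤ N := by
        have := Finset.card_le_card hS'
        rwa [Finset.card_range] at this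
      obtain ⟨i1, i2⟩ := ih _ hS'
      have hd := lit_dep thr hdl hdf N S hS'
      have hfun : litF s thr lab f (N + 1) S = fun x => litF s thr lab f N S x *
          (fun x : ℕ → ℝ => if lab x < thr then (1 : ℝ) else 0) (shift (N * s) x) := by
        funext x
        exact lit_step_out s thr lab f N S hN x
      rw [hfun]
      refine ⟨lit_int ν hd i1 hρi, ?_⟩
      rw [integral_mul_shift ν hd i1.1 hρi.1, i2, hρ']
      have h6 : N + 1 - S.card = (N - S.card) + 1 := by omega
      rw [h6, pow_succ]
      ring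

end Pool.Agent.H59.CE
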