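import Pool.Agent.H98.CE.Targets

/-!
# PHI: high boxes are rare (MP_65efe8_pr)
-/

set_option autoImplicit false

open MeasureTheory ProbabilityTheory Filter Topology
open Pool.Agent.H95 Pool.Agent.H95.Cop
open Pool.Agent.H55.CG (pz VV Mo)

namespace Pool.Agent.H59.CE

open Pool.Agent.H98.CE

theorem pf_PHI : T_PHI := by
  intro K ν _ ℓ α β n J t C E w lab hα hβ hO thr hthr
  set γ : ℝ := 1 / (1 + α) with hγ
  have hγ0 : 0 ≤ γ := by positivity
  set ε : ℝ := Real.exp (β * thr * γ) with hε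
  have hε0 : 0 < ε := Real.exp_pos _
  have hsub : {x : ℕ → ℝ | thr ≤ lab x} ⊆ {x : ℕ → ℝ | ε ≤ w x ^ γ} := by
    intro x hx
    have hx' : thr ≤ lab x := hx
    have h1 : Real.exp (β * thr) ≤ w x := by
      refine le_trans (Real.exp_le_exp.2 ?_) (hO.low x (by omega))
      exact mul_le_mul_of_nonneg_left (by exact_mod_cast hx') hβ
    show ε ≤ w x ^ γ
    rw [hε, Real.exp_mul]
    exact Real.rpow_le_rpow (Real.exp_pos _).le h1 hγ0
  have hM := mul_meas_ge_le_integral_of_nonneg (μ := iid ν)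
    (Filter.Eventually.of_forall fun x => Real.rpow_nonneg (hO.nonneg x) γ) hO.i1 ε
  have h2 : (iid ν).real {x : ℕ → ℝ | thr ≤ lab x} ≤ (iid ν).real {x : ℕ → ℝ | ε ≤ w x ^ γ} :=
    measureReal_mono hsub
  have h3 : ε * (iid ν).real {x : ℕ → ℝ | thr ≤ lab x} ≤ n * C :=
    (mul_le_mul_of_nonneg_left h2 hε0.le).trans (hM.trans hO.u1)
  have h4 : Real.exp (-(β * thr / (1 + α))) = ε⁻¹ := by
    rw [hε, ← Real.exp_neg]
    congr 1
    rw [hγ]
    ring
  rw [h4, ← div_eq_mul_inv, le_div_iff₀ hε0, mul_comm]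
  exact h3

end Pool.Agent.H59.CE
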