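import Pool.Agent.H98.CE.Targets
import Pool.Agent.H59.CE.LIS

/-!
# ST2: the densities of the next level (MP_65efe8_pr)
-/

set_option autoImplicit false

open MeasureTheory ProbabilityTheory Filter Topology
open Pool.Agent.H95 Pool.Agent.H95.Cop
open Pool.Agent.H55.CG (pz VV Mo)

namespace Pool.Agent.H59.CE

open Pool.Agent.H98.CE

theorem lis_int (hLIT : T_LIT) (ν : Measure ℝ) [IsProbabilityMeasure ν] (s thr : ℕ)
    {lab : (ℕ → ℝ) → ℕ} {f : (ℕ → ℝ) → ℝ} (hlab : Measurable lab) (hdl : DepLt s lab)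
    (hf : Measurable f) (hdf : DepLt s f) (hf0 : ∀ x, 0 ≤ f x) (hfi : Integrable f (iid ν))
    (N : ℕ) (S : Finset ℕ) (hS : S ⊆ Finset.range N) (v : ℕ) :
    Integrable (lisF s thr lab f N S v) (iid ν) := by
  classical
  have hL := (hLIT ν s thr lab f hlab hdl hf hdf hf0 hfi N S hS).1
  refine Integrable.mono' hL (lis_meas s thr hlab hf N S v).aestronglyMeasurable
    (Filter.Eventually.of_forall fun x => ?_)
  have hnn : 0 ≤ ∏ k ∈ S, f (shift (k * s) x) := Finset.prod_nonneg fun k _ => hf0 _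
  rw [Real.norm_eq_abs]
  unfold lisF
  by_cases h1 : (∀ k < N, (k ∈ S ↔ thr ≤ lab (shift (k * s) x)))
  · rw [if_pos h1]
    split_ifs
    · rw [abs_of_nonneg hnn]
    · rw [abs_zero]
      exact hnn
  · rw [if_neg h1, if_neg (fun h => h1 h.1), abs_zero]

theorem pf_ST2 (hGLF : T_GLF) (hGLU : T_GLU) (hHLP : T_HLP) (hCNT : T_CNT) (hLIT : T_LIT)
    (hLIS : T_LIS) (hCVM : T_CVM) : T_ST2 := by
  classical
  intro K ν _ ℓ α β κ n J t C E w lab hℓ hα hβ hκ hn hO ht thr M G A ms hthr hms hAM ω e p hω hω2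
    hp he hMp heM j hj
  set γ : ℝ := 1 / (1 + α) with hγ
  have hγ0 : 0 < γ := by positivity
  set f : (ℕ → ℝ) → ℝ := fun x => w x ^ γ with hf
  have hfm : Measurable f := hO.mw.pow_const γ
  have hfd : DepLt (n * ℓ) f := fun x x' h => by
    show w x ^ γ = w x' ^ γ
    rw [hO.dw x x' h]
  have hf0 : ∀ x, 0 ≤ f x := fun x => Real.rpow_nonneg (hO.nonneg x) _
  have hfi : Integrable f (iid ν) := hO.i1
  set b : ℕ → ℝ := fun j => ∫ x : ℕ → ℝ, (if lab x = j then f x else 0) ∂(iid ν) with hb'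
  set ρ : ℝ := (iid ν).real {x : ℕ → ℝ | lab x < thr} with hρ
  set r : ℕ → ℝ := fun g => lk α κ (g * n) with hr
  have hr0 : ∀ d, 0 ≤ r d := fun d => by
    show 0 ≤ lk α κ (d * n)
    unfold lk
    positivity
  have hn0 : (0 : ℝ) < n := by exact_mod_cast hn
  have hpos : ∀ i < A, ∀ m < ms, i + m * (G + 1) < M := by
    intro i hi m hm
    have h1 : m * (G + 1) ≤ (ms - 1) * (G + 1) := Nat.mul_le_mul_right _ (by omega)
    omega
  have hpt : ∀ x : ℕ → ℝ, (if nl n ℓ thr M G A ms lab x = j then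
      nw α κ n ℓ thr M G A ms w lab x ^ γ else 0) =
      ∑ L ∈ GLs G A ms, lp r L ^ γ *
        lisF (n * ℓ) thr lab f M L.toFinset (j + (L.length - 1) * (thr - 1)) x := by
    intro x
    have hbL : ∀ L ∈ GLs G A ms, (hb n ℓ thr M lab x = L ↔
        ∀ k < M, (k ∈ L.toFinset ↔ thr ≤ lab (shift (k * (n * ℓ)) x))) := by
      intro L hL
      obtain ⟨i, hi, m, hm, hLm⟩ := ((hGLU G A ms (fun _ => 0)).1 L).1 hL
      exact (hHLP G m i L hLm).1 n ℓ thr M lab x (hpos i hi m hm)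
    by_cases hB : hb n ℓ thr M lab x ∈ GLs G A ms
    · rw [Finset.sum_eq_single (hb n ℓ thr M lab x)]
      · obtain ⟨i, hi, m, hm, hLm⟩ := ((hGLU G A ms (fun _ => 0)).1 _).1 hB
        obtain ⟨-, h2, h3, h4⟩ := hHLP G m i _ hLm
        have hcond := (hbL _ hB).1 rfl
        have hw0 : ∀ k ∈ (hb n ℓ thr M lab x).toFinset, 0 ≤ w (shift (k * (n * ℓ)) x) :=
          fun k _ => hO.nonneg _
        unfold nl nw lisF
        rw [if_pos hB, if_pos hB, h2, h3]
        by_cases hc : ∑ k ∈ (hb n ℓ thr M lab x).toFinset, lab (shift (k * (n * ℓ)) x) =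
            j + ((hb n ℓ thr M lab x).length - 1) * (thr - 1)
        · rw [if_pos (by omega), if_pos ⟨hcond, hc⟩, Real.mul_rpow (h4 r hr0).1
            (Finset.prod_nonneg hw0), ← Real.finsetProd_rpow _ _ hw0]
        · rw [if_neg (by omega), if_neg (fun h => hc h.2), mul_zero]
      · intro L hL hne
        unfold lisF
        rw [if_neg, mul_zero]
        rintro ⟨h1, -⟩
        exact hne ((hbL L hL).2 h1).symm
      · intro h
        exact absurd hB h
    · rw [if_neg, Finset.sum_eq_zero]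
      · intro L hL
        unfold lisF
        rw [if_neg, mul_zero]
        rintro ⟨h1, -⟩
        exact hB (by rw [(hbL L hL).2 h1]; exact hL)
      · unfold nl
        rw [if_neg hB]
        omega
  -- the lists
  have hsub : ∀ i < A, ∀ m < ms, ∀ L ∈ gl G m i, L.toFinset ⊆ Finset.range M := by
    intro i hi m hm L hL k hk
    rw [List.mem_toFinset] at hk
    have h1 := ((hGLF G m i).2 L hL).2.2.2.2 k hk
    have h2 := hpos i hi m hm
    rw [Finset.mem_range]
    omega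
  have hint : ∀ L ∈ GLs G A ms, Integrable (fun x : ℕ → ℝ => lp r L ^ γ *
      lisF (n * ℓ) thr lab f M L.toFinset (j + (L.length - 1) * (thr - 1)) x) (iid ν) := by
    intro L hL
    obtain ⟨i, hi, m, hm, hLm⟩ := ((hGLU G A ms (fun _ => 0)).1 L).1 hL
    exact (lis_int hLIT ν (n * ℓ) thr hO.ml hO.dl hfm hfd hf0 hfi M L.toFinset
      (hsub i hi m hm L hLm) _).const_mul _
  -- the probability of the low labels
  have hq0 : 0 ≤ (iid ν).real {x : ℕ → ℝ | thr ≤ lab x} := measureReal_nonneg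
  have hρq : ρ = 1 - (iid ν).real {x : ℕ → ℝ | thr ≤ lab x} := by
    have h1 : {x : ℕ → ℝ | lab x < thr} = {x : ℕ → ℝ | thr ≤ lab x}ᶜ := by
      ext x
      simp
    have h2 : MeasurableSet {x : ℕ → ℝ | thr ≤ lab x} := hO.ml (measurableSet_Ici (a := thr))
    rw [hρ, h1, probReal_compl_eq_one_sub h2]
  have hρ0 : 0 ≤ ρ := measureReal_nonneg
  have hρ1 : ρ ≤ 1 := by rw [hρq]; linarith
  have hρM : 1 - M * p ≤ ρ ^ M := by
    have h1 := one_add_mul_le_pow (a := -(iid ν).real {x : ℕ → ℝ | thr ≤ lab x}) (by linarith) M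
    have h2 : 1 + -(iid ν).real {x : ℕ → ℝ | thr ≤ lab x} = ρ := by rw [hρq]; ring
    rw [h2] at h1
    have h3 : (M : ℝ) * (iid ν).real {x : ℕ → ℝ | thr ≤ lab x} ≤ M * p :=
      mul_le_mul_of_nonneg_left hp (Nat.cast_nonneg M)
    linarith
  -- the sums `cv`
  have hcv0 : ∀ m v, 0 ≤ cv t thr m v := fun m v => (hCVM t t thr m v ht).1
  have hcvb : ∀ m v, (n : ℝ) ^ m * cv t thr m v ≤ cv b thr m v := by
    intro m v
    rw [← (hCVM t t thr m v ht).2.1 n]
    refine (hCVM (fun j => n * t j) b thr m v (fun j => mul_nonneg hn0.le (ht j))).2.2 ?_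
    intro i hi
    exact hO.dens i (by omega)
  have hterm : ∀ i < A, ∀ m < ms, ∀ L ∈ gl G m i,
      lp r L ^ γ * ((n : ℝ) ^ (m + 1) * cv t thr (m + 1) (j + m * (thr - 1)) * (1 - M * p)) ≤
      ∫ x : ℕ → ℝ, lp r L ^ γ *
        lisF (n * ℓ) thr lab f M L.toFinset (j + (L.length - 1) * (thr - 1)) x ∂(iid ν) := by
    intro i hi m hm L hL
    obtain ⟨-, g1, -, g2, -⟩ := (hGLF G m i).2 L hL
    have h1 : ∫ x : ℕ → ℝ, lisF (n * ℓ) thr lab f M L.toFinset
        (j + (L.length - 1) * (thr - 1)) x ∂(iid ν) =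
        cv b thr L.toFinset.card (j + (L.length - 1) * (thr - 1)) * ρ ^ (M - L.toFinset.card) :=
      hLIS ν (n * ℓ) thr lab f hO.ml hO.dl hfm hfd hf0 hfi M L.toFinset (hsub i hi m hm L hL) _
    rw [integral_const_mul, h1, g1, g2, Nat.add_sub_cancel]
    refine mul_le_mul_of_nonneg_left ?_ (Real.rpow_nonneg ((hHLP G m i L hL).2.2.2 r hr0).1 _)
    have h2 : ρ ^ M ≤ ρ ^ (M - (m + 1)) := pow_le_pow_of_le_one hρ0 hρ1 (Nat.sub_le _ _)
    have h3 : 0 ≤ 1 - M * p := by linarith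
    exact mul_le_mul (hcvb _ _) (hρM.trans h2) h3
      ((mul_nonneg (by positivity) (hcv0 _ _)).trans (hcvb _ _))
  show ((M * n : ℕ) : ℝ) * nx t thr ms ω e j ≤ ∫ x : ℕ → ℝ, (if nl n ℓ thr M G A ms lab x = j then
      nw α κ n ℓ thr M G A ms w lab x ^ γ else 0) ∂(iid ν)
  simp only [hpt]
  rw [integral_finsetSum _ hint, (hGLU G A ms _).2]
  set Hs : ℝ := ∑ g ∈ Finset.Ico 2 (G + 2), 1 / ((g : ℝ) + 1) with hHs
  set D : ℕ → ℝ := fun m => cv t thr (m + 1) (j + m * (thr - 1)) with hD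
  have hD0 : ∀ m, 0 ≤ D m := fun m => hcv0 _ _
  have hMp0 : 0 ≤ 1 - M * p := by linarith
  have hinner : ∀ i < A, ∀ m < ms, (κ ^ γ * Hs) ^ m * D m * (n * (1 - M * p)) ≤
      ∑ L ∈ gl G m i, ∫ x : ℕ → ℝ, lp r L ^ γ *
        lisF (n * ℓ) thr lab f M L.toFinset (j + (L.length - 1) * (thr - 1)) x ∂(iid ν) := by
    intro i hi m hm
    refine le_trans (le_of_eq ?_) (Finset.sum_le_sum (hterm i hi m hm))
    have hC := hCNT α κ n G m i hα hκ hn
    rw [← Finset.sum_mul]
    rw [show (∑ L ∈ gl G m i, lp r L ^ γ) = (κ ^ γ / n * Hs) ^ m from hC]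
    have h5 : κ ^ γ / n * Hs = κ ^ γ * Hs / n := by ring
    rw [h5, div_pow, pow_succ]
    have hnm : (n : ℝ) ^ m ≠ 0 := by positivity
    show (κ ^ γ * Hs) ^ m * D m * (n * (1 - M * p)) =
      (κ ^ γ * Hs) ^ m / n ^ m * (n ^ m * n * D m * (1 - M * p))
    field_simp
  calc ((M * n : ℕ) : ℝ) * nx t thr ms ω e j = (e * M) * (∑ m ∈ Finset.range ms, ω ^ m * D m * n) := by
        unfold nx
        rw [← Finset.sum_mul]
        push_cast
        ring
    _ ≤ (A * (1 - M * p)) * (∑ m ∈ Finset.range ms, ω ^ m * D m * n) := by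
        refine mul_le_mul_of_nonneg_right heM (Finset.sum_nonneg fun m _ => ?_)
        have := hD0 m
        positivity
    _ ≤ (A * (1 - M * p)) * (∑ m ∈ Finset.range ms, (κ ^ γ * Hs) ^ m * D m * n) := by
        refine mul_le_mul_of_nonneg_left (Finset.sum_le_sum fun m _ => ?_)
          (mul_nonneg (Nat.cast_nonneg A) hMp0)
        have h6 : ω ^ m ≤ (κ ^ γ * Hs) ^ m := pow_le_pow_left₀ hω hω2 m
        have := hD0 m
        gcongr
    _ = ∑ i ∈ Finset.range A, ∑ m ∈ Finset.range ms,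
        (κ ^ γ * Hs) ^ m * D m * (n * (1 - M * p)) := by
        rw [Finset.sum_const, Finset.card_range, nsmul_eq_mul, mul_assoc, Finset.mul_sum]
        congr 1
        refine Finset.sum_congr rfl fun m _ => ?_
        ring
    _ ≤ _ := by
        refine Finset.sum_le_sum fun i hi => Finset.sum_le_sum fun m hm => ?_
        exact hinner i (Finset.mem_range.1 hi) m (Finset.mem_range.1 hm)

end Pool.Agent.H59.CE
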