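import Pool.Agent.H98.CE.Targets

/-!
# STP: one step (MP_65efe8_pr)
-/

set_option autoImplicit false

open MeasureTheory ProbabilityTheory Filter Topology
open Pool.Agent.H95 Pool.Agent.H95.Cop
open Pool.Agent.H55.CG (pz VV Mo)

namespace Pool.Agent.H59.CE

open Pool.Agent.H98.CE

theorem pf_STP (hST1 : T_ST1) (hST2 : T_ST2) (hST3 : T_ST3) (hPHI : T_PHI) : T_STP := by
  intro K ν _ ℓ α β κ n J t C E hℓ hα hβ hκ hκ1 hHK hn hC hE hO ht thr M G A ms hthr hms hG hA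
    hexp ω e p R hω hω2 hp he0 hp1 heM hR hR2
  obtain ⟨w, lab, hOb⟩ := hO
  obtain ⟨a1, a2, a3, a4, a5⟩ := hST1 K ν ℓ α β κ n J t C E w lab hℓ hα hβ hκ.le hHK hn hOb thr M
    G A ms hthr hms hA hexp
  obtain ⟨b1, b2, b3, b4⟩ := hST3 K ν ℓ α β κ n J t C E w lab hℓ hα hκ hκ1 hn hC hE hOb thr M
    G A ms hthr hms hG hA R hR hR2
  have hq := hPHI K ν ℓ α β n J t C E w lab hα hβ hOb thr hthr
  have hA0 : (0 : ℝ) ≤ A := Nat.cast_nonneg A
  have hd := hST2 K ν ℓ α β κ n J t C E w lab hℓ hα hβ hκ hn hOb ht thr M G A ms hthr hms hA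
    ω e (n * C * Real.exp (-(β * thr / (1 + α)))) hω hω2 hq he0 (hp.trans hp1)
    (heM.trans (mul_le_mul_of_nonneg_left (by linarith) hA0))
  exact ⟨_, _, a1, a2, a3, a4, fun x => (a5 x).1, fun x => (a5 x).2.1, fun x => (a5 x).2.2.1,
    fun x => (a5 x).2.2.2.1, fun x => (a5 x).2.2.2.2, b1, b2, hd, b3, b4⟩

end Pool.Agent.H59.CE
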