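import Pool.Agent.H98.CE.Targets
import Pool.Agent.H55.CG.Targets

/-!
# TL1: exponential moments of one term, with an additional tilt (MP_65efe8_pr)
-/

set_option autoImplicit false

open MeasureTheory ProbabilityTheory Filter Topology
open Pool.Agent.H95 Pool.Agent.H95.Cop
open Pool.Agent.H55.CG (pz VV Mo)

namespace Pool.Agent.H59.CE

open Pool.Agent.H98.CE

theorem tl1_sum (c : ℝ) (x : ℕ → ℝ) (N a b : ℕ) (hb : b ≤ N) :
    ∑ i ∈ Finset.range N, (if i ∈ Finset.Ico a b then c else 0) * x i = c * H x a b := by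
  unfold H
  rw [Finset.mul_sum]
  have h1 : ∀ i ∈ Finset.range N, (if i ∈ Finset.Ico a b then c else 0) * x i =
      if i ∈ Finset.Ico a b then c * x i else 0 := by
    intro i _
    split_ifs
    · rfl
    · rw [zero_mul]
  rw [Finset.sum_congr rfl h1, Finset.sum_ite_mem]
  congr 1
  ext i
  simp only [Finset.mem_inter, Finset.mem_range, Finset.mem_Ico]
  omega

theorem tl1_prod (M : ℝ) (N a b : ℕ) (hb : b ≤ N) :
    ∏ i ∈ Finset.range N, (if i ∈ Finset.Ico a b then M else 1) = M ^ (b - a) := by
  rw [Finset.prod_ite_mem, Finset.prod_const]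
  have h1 : Finset.range N ∩ Finset.Ico a b = Finset.Ico a b := by
    ext i
    simp only [Finset.mem_inter, Finset.mem_range, Finset.mem_Ico]
    omega
  rw [h1, Nat.card_Ico]

theorem pf_TL1 (hPRE : Pool.Agent.H55.CG.T_PRE) : T_TL1 := by
  intro ν _ hν p θ y y' z z' u v hyy hyz hzz huv
  have hM0 : Mo ν 0 = 1 := by
    unfold Mo
    simp
  set N : ℕ := max z' v with hN
  have hz'N : z' ≤ N := le_max_left _ _
  have hvN : v ≤ N := le_max_right _ _
  set c : ℕ → ℝ := fun i => (if i ∈ Finset.Ico y y' then p / 2 else 0) +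
    (if i ∈ Finset.Ico y' z then p else 0) + (if i ∈ Finset.Ico z z' then p / 2 else 0) +
    (if i ∈ Finset.Ico u v then θ else 0) with hc
  have hexp : ∀ x : ℕ → ℝ, p * ey x y y' z z' + θ * H x u v =
      ∑ i ∈ Finset.range N, c i * x i := by
    intro x
    simp only [hc, add_mul, Finset.sum_add_distrib]
    rw [tl1_sum _ x N y y' (by omega), tl1_sum _ x N y' z (by omega), tl1_sum _ x N z z' hz'N,
      tl1_sum _ x N u v hvN]
    unfold ey
    ring
  obtain ⟨i1, i2⟩ := hPRE ν hν c N
  simp only [hexp]
  refine ⟨fun hd => ⟨i1, ?_⟩, fun h1 h2 => ⟨i1, ?_⟩⟩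
  · rw [i2]
    have key : ∀ i ∈ Finset.range N, Mo ν (c i) =
        (if i ∈ Finset.Ico y y' then Mo ν (p / 2) else 1) *
        (if i ∈ Finset.Ico y' z then Mo ν p else 1) *
        (if i ∈ Finset.Ico z z' then Mo ν (p / 2) else 1) *
        (if i ∈ Finset.Ico u v then Mo ν θ else 1) := by
      intro i _
      simp only [hc, Finset.mem_Ico]
      by_cases a1 : y ≤ i ∧ i < y' <;> by_cases a2 : y' ≤ i ∧ i < z <;>
        by_cases a3 : z ≤ i ∧ i < z' <;> by_cases a4 : u ≤ i ∧ i < v <;>
        first
        | (exfalso; omega)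
        | simp [a1, a2, a3, a4, hM0]
    rw [Finset.prod_congr rfl key, Finset.prod_mul_distrib, Finset.prod_mul_distrib,
      Finset.prod_mul_distrib, tl1_prod _ N y y' (by omega), tl1_prod _ N y' z (by omega),
      tl1_prod _ N z z' hz'N, tl1_prod _ N u v hvN, pow_add]
    ring
  · rw [i2]
    have key : ∀ i ∈ Finset.range N, Mo ν (c i) =
        (if i ∈ Finset.Ico y y' then Mo ν (p / 2) else 1) *
        (if i ∈ Finset.Ico y' u then Mo ν p else 1) *
        (if i ∈ Finset.Ico v z then Mo ν p else 1) *
        (if i ∈ Finset.Ico z z' then Mo ν (p / 2) else 1) *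
        (if i ∈ Finset.Ico u v then Mo ν (p + θ) else 1) := by
      intro i _
      simp only [hc, Finset.mem_Ico]
      by_cases a1 : y ≤ i ∧ i < y'
      · have a2 : ¬ (y' ≤ i ∧ i < z) := by omega
        have a3 : ¬ (z ≤ i ∧ i < z') := by omega
        have a4 : ¬ (u ≤ i ∧ i < v) := by omega
        have a5 : ¬ (y' ≤ i ∧ i < u) := by omega
        have a6 : ¬ (v ≤ i ∧ i < z) := by omega
        simp only [if_pos a1, if_neg a2, if_neg a3, if_neg a4, if_neg a5, if_neg a6, zero_add, add_zero, one_mul, mul_one]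
      · by_cases a3 : z ≤ i ∧ i < z'
        · have a2 : ¬ (y' ≤ i ∧ i < z) := by omega
          have a4 : ¬ (u ≤ i ∧ i < v) := by omega
          have a5 : ¬ (y' ≤ i ∧ i < u) := by omega
          have a6 : ¬ (v ≤ i ∧ i < z) := by omega
          simp only [if_neg a1, if_neg a2, if_pos a3, if_neg a4, if_neg a5, if_neg a6, zero_add, add_zero, one_mul, mul_one]
        · by_cases a4 : u ≤ i ∧ i < v
          · have a2 : y' ≤ i ∧ i < z := by omega
            have a5 : ¬ (y' ≤ i ∧ i < u) := by omega
            have a6 : ¬ (v ≤ i ∧ i < z) := by omega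
            simp only [if_neg a1, if_pos a2, if_neg a3, if_pos a4, if_neg a5, if_neg a6,
              zero_add, add_zero, one_mul, mul_one]
          · by_cases a2 : y' ≤ i ∧ i < z
            · by_cases a5 : y' ≤ i ∧ i < u
              · have a6 : ¬ (v ≤ i ∧ i < z) := by omega
                simp only [if_neg a1, if_pos a2, if_neg a3, if_neg a4, if_pos a5, if_neg a6,
                  zero_add, add_zero, one_mul, mul_one]
              · have a6 : v ≤ i ∧ i < z := by omega
                simp only [if_neg a1, if_pos a2, if_neg a3, if_neg a4, if_neg a5, if_pos a6,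
                  zero_add, add_zero, one_mul, mul_one]
            · have a5 : ¬ (y' ≤ i ∧ i < u) := by omega
              have a6 : ¬ (v ≤ i ∧ i < z) := by omega
              simp only [if_neg a1, if_neg a2, if_neg a3, if_neg a4, if_neg a5, if_neg a6, hM0,
                zero_add, add_zero, one_mul, mul_one]
    rw [Finset.prod_congr rfl key, Finset.prod_mul_distrib, Finset.prod_mul_distrib,
      Finset.prod_mul_distrib, Finset.prod_mul_distrib, tl1_prod _ N y y' (by omega),
      tl1_prod _ N y' u (by omega), tl1_prod _ N v z (by omega), tl1_prod _ N z z' hz'N,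
      tl1_prod _ N u v hvN, pow_add]
    have he : z - y' - (v - u) = (u - y') + (z - v) := by omega
    rw [he, pow_add]
    ring

end Pool.Agent.H59.CE
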